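import Mathlib
import Pool.Agent.helper85.PG.Basic
import Pool.Agent.helper85.PG.Spec2

/-! pg:E1 (multiplicative energy of a system). -/

set_option autoImplicit false

namespace Pool.Agent.helper85.PG

theorem E1 (hLSM : LSM_stmt) (hCNT : CNT_stmt) : E1_stmt := by
  intro d κ hκ
  obtain ⟨C, p₀, hC, hL⟩ := hLSM d κ hκ
  obtain ⟨N, hN⟩ := exists_nat_ge (C ^ (1 / κ))
  refine ⟨max p₀ N, fun p _ hp P hP l hl => ?_⟩
  classical
  have hp0 : p₀ ≤ p := (le_max_left _ _).trans hp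
  have hpN : N ≤ p := (le_max_right _ _).trans hp
  have hCpos : 0 < C := lt_of_lt_of_le one_pos hC
  have hCp : C ≤ (p : ℝ) ^ κ := by
    have h1 : C ^ (1 / κ) ≤ (p : ℝ) := hN.trans (by exact_mod_cast hpN)
    have h2 : (C ^ (1 / κ)) ^ κ ≤ (p : ℝ) ^ κ :=
      Real.rpow_le_rpow (by positivity) h1 hκ.le
    rwa [← Real.rpow_mul hCpos.le, one_div, inv_mul_cancel₀ hκ.ne', Real.rpow_one] at h2
  have hpp : 0 < (p : ℝ) := by
    have := (Fact.out : p.Prime).pos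
    exact_mod_cast this
  obtain ⟨hc1, -, hc3⟩ := hCNT p (P l) (hP.zero_mem hl.le)
  have hL' := hL p hp0 P hP l hl
  have hcard : (1 : ℝ) ≤ ((P l).card : ℝ) := by
    have := hP.card_pos hl.le
    exact_mod_cast this
  set f : ℝ := ((P l).card : ℝ) with hf
  have hx0 : ∀ ρ : ZMod p, (0 : ℝ) ≤ (rr (P l) ρ : ℝ) - 1 := by
    intro ρ
    have : (1 : ℝ) ≤ (rr (P l) ρ : ℝ) := by exact_mod_cast hc1 ρ
    linarith
  -- pointwise bound
  have hpt : ∀ ρ ∈ Finset.univ.erase (0 : ZMod p), ((rr (P l) ρ : ℝ) - 1) ^ 2 ≤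
      (if ρ ∈ Lam C (P l) then (rr (P l) ρ : ℝ) ^ 2 else 0) +
        C * f ^ 2 / p * ((rr (P l) ρ : ℝ) - 1) := by
    intro ρ hρ
    have hρ0 : ρ ≠ 0 := (Finset.mem_erase.1 hρ).1
    have h0 := hx0 ρ
    have hnn : 0 ≤ C * f ^ 2 / p * ((rr (P l) ρ : ℝ) - 1) := by positivity
    by_cases hmem : ρ ∈ Lam C (P l)
    · rw [if_pos hmem]
      nlinarith
    · rw [if_neg hmem, zero_add]
      rw [mem_Lam] at hmem
      by_cases h2 : 2 ≤ rr (P l) ρ
      · have h3 : (p : ℝ) * (rr (P l) ρ : ℝ) < C * f ^ 2 := by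
          by_contra hcon
          exact hmem ⟨hρ0, h2, not_lt.1 hcon⟩
        have h4 : (rr (P l) ρ : ℝ) - 1 ≤ C * f ^ 2 / p := by
          rw [le_div_iff₀ hpp]
          nlinarith
        calc ((rr (P l) ρ : ℝ) - 1) ^ 2 = ((rr (P l) ρ : ℝ) - 1) * ((rr (P l) ρ : ℝ) - 1) := by ring
          _ ≤ C * f ^ 2 / p * ((rr (P l) ρ : ℝ) - 1) := mul_le_mul_of_nonneg_right h4 h0
      · have h3 : rr (P l) ρ = 1 := by
          have := hc1 ρ
          omega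
        rw [h3]
        norm_num
  have hsum := Finset.sum_le_sum hpt
  rw [Finset.sum_add_distrib, ← Finset.mul_sum, hc3] at hsum
  have hS1 : ∑ ρ ∈ Finset.univ.erase (0 : ZMod p),
      (if ρ ∈ Lam C (P l) then (rr (P l) ρ : ℝ) ^ 2 else 0) ≤ (p : ℝ) ^ κ * f ^ 2 := by
    refine le_trans ?_ hL'
    rw [← Finset.sum_filter]
    refine Finset.sum_le_sum_of_subset_of_nonneg ?_ ?_
    · intro ρ hρ
      exact (Finset.mem_filter.1 hρ).2
    · intro ρ _ _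
      positivity
  have hS2 : C * f ^ 2 / p * (f - 1) ^ 2 ≤ (p : ℝ) ^ κ * (f ^ 4 / p) := by
    have h1 : (f - 1) ^ 2 ≤ f ^ 2 := by nlinarith
    calc C * f ^ 2 / p * (f - 1) ^ 2 ≤ C * f ^ 2 / p * f ^ 2 :=
          mul_le_mul_of_nonneg_left h1 (by positivity)
      _ = C * (f ^ 4 / p) := by ring
      _ ≤ (p : ℝ) ^ κ * (f ^ 4 / p) := mul_le_mul_of_nonneg_right hCp (by positivity)
  calc ∑ ρ ∈ Finset.univ.erase (0 : ZMod p), ((rr (P l) ρ : ℝ) - 1) ^ 2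
      ≤ (p : ℝ) ^ κ * f ^ 2 + (p : ℝ) ^ κ * (f ^ 4 / p) := by linarith
    _ = (p : ℝ) ^ κ * (f ^ 2 + f ^ 4 / p) := by ring

end Pool.Agent.helper85.PG
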