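import Mathlib
import Pool.Agent.helper85.PG.Spec4
import Pool.Agent.helper85.PG.Basic
import Pool.Agent.helper43.PG.FNB

/-! pg:FND (general form of Theorem B).  The proof follows `FNB` of helper43. -/

set_option autoImplicit false

namespace Pool.Agent.helper85.PG

open Module Pointwise

/-- the covering of `A` by translates of a system of the size of `C`. -/
theorem FND_cov (hFRE : FRE_stmt) (hCVR : CVR_stmt) (hPKC : PKC_stmt) (K : ℝ) :
    ∃ (d : ℕ) (C₁ : ℝ), 1 ≤ C₁ ∧ ∀ (p : ℕ) [Fact p.Prime] (A C : Finset (ZMod p)), C.Nonempty →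
      ((C + C).card : ℝ) ≤ K * (C.card : ℝ) → ((A + C).card : ℝ) ≤ K * (A.card : ℝ) →
      ∃ (P : ℝ → Finset (ZMod p)) (Y : Finset (ZMod p)), IsSys p d P ∧
        (Y.card : ℝ) * (C.card : ℝ) ≤ C₁ * (A.card : ℝ) ∧
        ((P 1).card : ℝ) ≤ C₁ * (C.card : ℝ) ∧ (C.card : ℝ) ≤ C₁ * ((P 1).card : ℝ) ∧
        ∀ a ∈ A, ∃ y ∈ Y, a - y ∈ P 1 := by
  obtain ⟨d, C, hC1, hF⟩ := hFRE K
  have hC0 : 0 < C := by linarith
  refine ⟨d, C ^ 2 * |K| + 5 ^ d * C + 1, by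
    have h1 : 0 ≤ C ^ 2 * |K| := by positivity
    have h2 : 0 ≤ 5 ^ d * C := by positivity
    linarith, ?_⟩
  intro p _ A D hD hDK hAK
  obtain ⟨P, F, hP, hFc, hPc, hDF⟩ := hF p D hD hDK
  obtain ⟨X, hXA, -, hXc, hXcard⟩ := hCVR p A D hD
  have hD0 : (0 : ℝ) < (D.card : ℝ) := by exact_mod_cast hD.card_pos
  have h2P : ((P 2).card : ℝ) ≤ 5 ^ d * ((P 1).card : ℝ) := by
    have h := ((hPKC.2.2 p d P hP 2 1 (by norm_num) (by norm_num))).1
    norm_num at h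
    exact h
  refine ⟨fun R => P (2 * R), X + F - F, hP.scale (by norm_num), ?_, ?_, ?_, ?_⟩
  · have h1 : ((X + F - F).card : ℝ) ≤ (X.card : ℝ) * (F.card : ℝ) * (F.card : ℝ) := by
      have h2 := (Finset.card_sub_le (s := X + F) (t := F)).trans
        (Nat.mul_le_mul_right _ (Finset.card_add_le (s := X) (t := F)))
      exact_mod_cast h2
    have h3 : (X.card : ℝ) * (D.card : ℝ) ≤ |K| * (A.card : ℝ) := by
      have h4 : (X.card : ℝ) * (D.card : ℝ) ≤ ((A + D).card : ℝ) := by exact_mod_cast hXcard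
      exact h4.trans (hAK.trans (mul_le_mul_of_nonneg_right (le_abs_self K) (Nat.cast_nonneg _)))
    have hF0 : (0 : ℝ) ≤ (F.card : ℝ) := Nat.cast_nonneg _
    have hFF : (F.card : ℝ) * (F.card : ℝ) ≤ C * C := mul_le_mul hFc hFc hF0 hC0.le
    calc ((X + F - F).card : ℝ) * (D.card : ℝ)
        ≤ (X.card : ℝ) * (F.card : ℝ) * (F.card : ℝ) * (D.card : ℝ) :=
          mul_le_mul_of_nonneg_right h1 hD0.le
      _ = ((F.card : ℝ) * (F.card : ℝ)) * ((X.card : ℝ) * (D.card : ℝ)) := by ring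
      _ ≤ (C * C) * (|K| * (A.card : ℝ)) := mul_le_mul hFF h3 (by positivity) (by positivity)
      _ = (C ^ 2 * |K|) * (A.card : ℝ) := by ring
      _ ≤ (C ^ 2 * |K| + 5 ^ d * C + 1) * (A.card : ℝ) := by
          refine mul_le_mul_of_nonneg_right ?_ (Nat.cast_nonneg _)
          have : 0 ≤ 5 ^ d * C := by positivity
          linarith
  · show ((P (2 * 1)).card : ℝ) ≤ _
    rw [mul_one]
    calc ((P 2).card : ℝ) ≤ 5 ^ d * ((P 1).card : ℝ) := h2P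
      _ ≤ 5 ^ d * (C * (D.card : ℝ)) := mul_le_mul_of_nonneg_left hPc (by positivity)
      _ = (5 ^ d * C) * (D.card : ℝ) := by ring
      _ ≤ (C ^ 2 * |K| + 5 ^ d * C + 1) * (D.card : ℝ) := by
          refine mul_le_mul_of_nonneg_right ?_ (Nat.cast_nonneg _)
          have : 0 ≤ C ^ 2 * |K| := by positivity
          linarith
  · show (D.card : ℝ) ≤ _ * ((P (2 * 1)).card : ℝ)
    rw [mul_one]
    have h1 : (D.card : ℝ) ≤ (F.card : ℝ) * ((P 1).card : ℝ) := by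
      exact_mod_cast FNB_card D (P 1) F hDF
    have h2 : ((P 1).card : ℝ) ≤ ((P 2).card : ℝ) := by
      exact_mod_cast Finset.card_le_card (hP.mono (by norm_num : (1 : ℝ) ≤ 2))
    have h5 : (1 : ℝ) ≤ 5 ^ d := one_le_pow₀ (by norm_num)
    have h6 : C ≤ 5 ^ d * C := le_mul_of_one_le_left hC0.le h5
    calc (D.card : ℝ) ≤ (F.card : ℝ) * ((P 1).card : ℝ) := h1
      _ ≤ C * ((P 2).card : ℝ) := mul_le_mul hFc h2 (Nat.cast_nonneg _) hC0.le
      _ ≤ (C ^ 2 * |K| + 5 ^ d * C + 1) * ((P 2).card : ℝ) := by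
          refine mul_le_mul_of_nonneg_right ?_ (Nat.cast_nonneg _)
          have : 0 ≤ C ^ 2 * |K| := by positivity
          linarith
  · intro a ha
    obtain ⟨x, hx, v, hv, v', hv', hax⟩ := hXc a ha
    obtain ⟨f, hf, hfP⟩ := hDF v hv
    obtain ⟨f', hf', hfP'⟩ := hDF v' hv'
    refine ⟨x + f' - f, Finset.sub_mem_sub (Finset.add_mem_add hx hf') hf, ?_⟩
    show _ ∈ P (2 * 1)
    have h1 : a - (x + f' - f) = (v' - f') - (v - f) := by
      have h2 : a = x + v' - v := by rw [← hax]; ring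
      rw [h2]; ring
    rw [h1]
    have h3 := hP.sub_mem hfP' hfP
    norm_num at h3
    rw [mul_one]
    exact h3

/-- FND (general form of Theorem B). -/
theorem FND (hFRE : FRE_stmt) (hCVR : CVR_stmt) (hPKC : PKC_stmt) (hTHB : THB_stmt) :
    FND_stmt := by
  intro K ε hε
  obtain ⟨d, C, hC1, hF⟩ := FND_cov hFRE hCVR hPKC K
  obtain ⟨δ, p₁, hδ, hT⟩ := hTHB d (ε / 2) (by positivity)
  obtain ⟨p₂, hp₂⟩ := FNB_large (ε / 2) (C ^ 2) (by positivity)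
  obtain ⟨p₃, hp₃⟩ := FNB_large (δ / 2) (C ^ 4) (by positivity)
  refine ⟨δ / 2, max (max p₁ p₂) p₃, by positivity, ?_⟩
  intro p _ hp A B Cs Ds hA hB hCn hDn hCK hAK hDK hBK hAε hBε hABε χ hχ β hβ
  have hp1' : p₁ ≤ p := (le_max_left _ _).trans ((le_max_left _ _).trans hp)
  have hp2' : p₂ ≤ p := (le_max_right _ _).trans ((le_max_left _ _).trans hp)
  have hp3' : p₃ ≤ p := (le_max_right _ _).trans hp
  have hC2 := hp₂ p hp2'
  have hC4 := hp₃ p hp3'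
  have hpp : (0 : ℝ) < p := Nat.cast_pos.2 (Fact.out : p.Prime).pos
  have hC0 : 0 < C := by linarith
  obtain ⟨P, F, hP, hFc, hPc, hAcard, hAF⟩ := hF p A Cs hCn hCK hAK
  obtain ⟨Q, F', hQ, hFc', hQc, hBcard, hBF⟩ := hF p B Ds hDn hDK hBK
  have hCle : C ≤ C ^ 2 := by nlinarith
  have hsp : (p : ℝ) ^ ε = (p : ℝ) ^ (ε / 2) * (p : ℝ) ^ (ε / 2) := by
    rw [← Real.rpow_add hpp]
    congr 1
    ring
  have hpe : 0 < (p : ℝ) ^ (ε / 2) := Real.rpow_pos_of_pos hpp _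
  have hone : ∀ X : ℝ, (p : ℝ) ^ ε ≤ C * X → (p : ℝ) ^ (ε / 2) ≤ X := by
    intro X hX
    rw [hsp] at hX
    have h1 : C * (p : ℝ) ^ (ε / 2) ≤ C * X :=
      (mul_le_mul_of_nonneg_right (hCle.trans hC2) hpe.le).trans hX
    exact le_of_mul_le_mul_left h1 hC0
  have hP1 := hone _ (hAε.trans hAcard)
  have hQ1 := hone _ (hBε.trans hBcard)
  have hPQ : (p : ℝ) ^ (1 / 2 + ε / 2) ≤ ((P 1).card : ℝ) * ((Q 1).card : ℝ) := by
    have h1 : (Cs.card : ℝ) * (Ds.card : ℝ) ≤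
        (C * ((P 1).card : ℝ)) * (C * ((Q 1).card : ℝ)) :=
      mul_le_mul hAcard hBcard (Nat.cast_nonneg _) (by positivity)
    have h2 : (p : ℝ) ^ (1 / 2 + ε) = (p : ℝ) ^ (ε / 2) * (p : ℝ) ^ (1 / 2 + ε / 2) := by
      rw [← Real.rpow_add hpp]
      congr 1
      ring
    have h3 : 0 < (p : ℝ) ^ (1 / 2 + ε / 2) := Real.rpow_pos_of_pos hpp _
    have h4 : C ^ 2 * (p : ℝ) ^ (1 / 2 + ε / 2) ≤ C ^ 2 * (((P 1).card : ℝ) * ((Q 1).card : ℝ)) := by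
      calc C ^ 2 * (p : ℝ) ^ (1 / 2 + ε / 2) ≤ (p : ℝ) ^ (ε / 2) * (p : ℝ) ^ (1 / 2 + ε / 2) :=
            mul_le_mul_of_nonneg_right hC2 h3.le
        _ = (p : ℝ) ^ (1 / 2 + ε) := h2.symm
        _ ≤ (Cs.card : ℝ) * (Ds.card : ℝ) := hABε
        _ ≤ (C * ((P 1).card : ℝ)) * (C * ((Q 1).card : ℝ)) := h1
        _ = C ^ 2 * (((P 1).card : ℝ) * ((Q 1).card : ℝ)) := by ring
    exact le_of_mul_le_mul_left h4 (by positivity)
  have hTB := hT p hp1' P Q hP hQ hP1 hQ1 hPQ χ hχ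
  obtain ⟨w, hw, hwsum⟩ := FNB_split A (P 1) F hAF
  obtain ⟨w', hw', hwsum'⟩ := FNB_split B (Q 1) F' hBF
  -- the phases
  set Z : ZMod p → ℂ := fun a => ∑ b ∈ B, β b * χ (a + b) with hZ
  have hph : ∀ a, ∃ u : ℂ, ‖u‖ ≤ 1 ∧ u * Z a = (‖Z a‖ : ℂ) := by
    intro a
    by_cases h0 : Z a = 0
    · exact ⟨0, by rw [norm_zero]; exact zero_le_one, by rw [h0]; simp⟩
    · refine ⟨(starRingEnd ℂ) (Z a) / (‖Z a‖ : ℂ), ?_, ?_⟩
      · rw [norm_div, RCLike.norm_conj, Complex.norm_real, norm_norm,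
          div_self (norm_ne_zero_iff.2 h0)]
      · have h1 : (‖Z a‖ : ℂ) ≠ 0 := by
          rw [Ne, Complex.ofReal_eq_zero]
          exact norm_ne_zero_iff.2 h0
        rw [div_mul_eq_mul_div, div_eq_iff h1, mul_comm, Complex.mul_conj, Complex.normSq_eq_norm_sq]
        push_cast
        ring
  choose α hα hαZ using hph
  have hsum : ((∑ a ∈ A, ‖Z a‖ : ℝ) : ℂ) = ∑ f ∈ F, ∑ g ∈ F', ∑ a ∈ P 1, ∑ b ∈ Q 1,
      (w f a * α (a + f)) * (w' g b * β (b + g)) * χ (a + b + (f + g)) := by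
    push_cast
    calc ∑ a ∈ A, (‖Z a‖ : ℂ) = ∑ a ∈ A, α a * Z a :=
          Finset.sum_congr rfl fun a _ => (hαZ a).symm
      _ = ∑ f ∈ F, ∑ a ∈ P 1, w f a * (α (a + f) * Z (a + f)) := hwsum _
      _ = ∑ f ∈ F, ∑ a ∈ P 1, ∑ g ∈ F', ∑ b ∈ Q 1,
          (w f a * α (a + f)) * (w' g b * β (b + g)) * χ (a + b + (f + g)) := by
        refine Finset.sum_congr rfl fun f _ => Finset.sum_congr rfl fun a _ => ?_
        rw [hZ]
        dsimp only
        rw [hwsum' (fun b => β b * χ (a + f + b)), ← mul_assoc, Finset.mul_sum]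
        refine Finset.sum_congr rfl fun g _ => ?_
        rw [Finset.mul_sum]
        refine Finset.sum_congr rfl fun b _ => ?_
        have h1 : a + f + (b + g) = a + b + (f + g) := by ring
        rw [h1]
        ring
      _ = _ := by
        refine Finset.sum_congr rfl fun f _ => ?_
        rw [Finset.sum_comm]
  have hnn : 0 ≤ ∑ a ∈ A, ‖Z a‖ := Finset.sum_nonneg fun a _ => norm_nonneg _
  have hterm : ∀ f ∈ F, ∀ g ∈ F', ‖∑ a ∈ P 1, ∑ b ∈ Q 1,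
      (w f a * α (a + f)) * (w' g b * β (b + g)) * χ (a + b + (f + g))‖ ≤
      (p : ℝ) ^ (-δ) * (((P 1).card : ℝ) * ((Q 1).card : ℝ)) := by
    intro f _ g _
    refine hTB (f + g) (fun a => w f a * α (a + f)) (fun b => w' g b * β (b + g)) ?_ ?_
    · intro a
      rw [norm_mul]
      exact mul_le_one₀ (hw f a) (norm_nonneg _) (hα _)
    · intro b
      rw [norm_mul]
      exact mul_le_one₀ (hw' g b) (norm_nonneg _) (hβ _)
  have hδ0 : 0 < (p : ℝ) ^ (-δ) := Real.rpow_pos_of_pos hpp _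
  have hbound : ∑ a ∈ A, ‖Z a‖ ≤
      (F.card : ℝ) * ((F'.card : ℝ) * ((p : ℝ) ^ (-δ) * (((P 1).card : ℝ) * ((Q 1).card : ℝ)))) := by
    have h1 : ∑ a ∈ A, ‖Z a‖ = ‖((∑ a ∈ A, ‖Z a‖ : ℝ) : ℂ)‖ := by
      rw [Complex.norm_real, Real.norm_of_nonneg hnn]
    rw [h1, hsum]
    refine (norm_sum_le _ _).trans ?_
    refine (Finset.sum_le_sum fun f hf => (norm_sum_le _ _).trans
      (Finset.sum_le_sum fun g hg => hterm f hf g hg)).trans ?_
    rw [Finset.sum_const, Finset.sum_const, nsmul_eq_mul, nsmul_eq_mul]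
  have hX : 0 ≤ (p : ℝ) ^ (-δ) * (((P 1).card : ℝ) * ((Q 1).card : ℝ)) := by positivity
  have hAB : 0 ≤ (A.card : ℝ) * (B.card : ℝ) := by positivity
  have e1 : (F.card : ℝ) * ((P 1).card : ℝ) ≤ C ^ 2 * (A.card : ℝ) := by
    calc (F.card : ℝ) * ((P 1).card : ℝ) ≤ (F.card : ℝ) * (C * (Cs.card : ℝ)) :=
          mul_le_mul_of_nonneg_left hPc (Nat.cast_nonneg _)
      _ = C * ((F.card : ℝ) * (Cs.card : ℝ)) := by ring
      _ ≤ C * (C * (A.card : ℝ)) := mul_le_mul_of_nonneg_left hFc hC0.le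
      _ = C ^ 2 * (A.card : ℝ) := by ring
  have e2 : (F'.card : ℝ) * ((Q 1).card : ℝ) ≤ C ^ 2 * (B.card : ℝ) := by
    calc (F'.card : ℝ) * ((Q 1).card : ℝ) ≤ (F'.card : ℝ) * (C * (Ds.card : ℝ)) :=
          mul_le_mul_of_nonneg_left hQc (Nat.cast_nonneg _)
      _ = C * ((F'.card : ℝ) * (Ds.card : ℝ)) := by ring
      _ ≤ C * (C * (B.card : ℝ)) := mul_le_mul_of_nonneg_left hFc' hC0.le
      _ = C ^ 2 * (B.card : ℝ) := by ring
  calc ∑ a ∈ A, ‖Z a‖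
      ≤ (F.card : ℝ) * ((F'.card : ℝ) * ((p : ℝ) ^ (-δ) * (((P 1).card : ℝ) * ((Q 1).card : ℝ)))) :=
        hbound
    _ = (p : ℝ) ^ (-δ) * (((F.card : ℝ) * ((P 1).card : ℝ)) *
          ((F'.card : ℝ) * ((Q 1).card : ℝ))) := by ring
    _ ≤ (p : ℝ) ^ (-δ) * ((C ^ 2 * (A.card : ℝ)) * (C ^ 2 * (B.card : ℝ))) := by
        refine mul_le_mul_of_nonneg_left ?_ hδ0.le
        exact mul_le_mul e1 e2 (by positivity) (by positivity)
    _ = C ^ 4 * (p : ℝ) ^ (-δ) * ((A.card : ℝ) * (B.card : ℝ)) := by ring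
    _ ≤ (p : ℝ) ^ (δ / 2) * (p : ℝ) ^ (-δ) * ((A.card : ℝ) * (B.card : ℝ)) :=
        mul_le_mul_of_nonneg_right (mul_le_mul_of_nonneg_right hC4 hδ0.le) hAB
    _ = (p : ℝ) ^ (-(δ / 2)) * ((A.card : ℝ) * (B.card : ℝ)) := by
        rw [← Real.rpow_add hpp]
        congr 2
        ring

end Pool.Agent.helper85.PG
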